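import Pool.Agent.H69.QC.TJF
import Pool.Agent.H19.NB.Small

/-!
# The quantum classical hierarchy relative to an oracle with Σ_k in EQP: module TJR
-/

set_option autoImplicit false

namespace Pool.Agent.H96.QC

open Finset Filter Pool.Agent.H6.NB Pool.Agent.H70.OQ Pool.Agent.H70.RK Pool.Agent.H68.QC
  Pool.Agent.H69.QC

/-- The probability depends only on short strings. -/
theorem prob_congr {A : QAlg} {m : ℕ} (hA : A.Short m) {O O' : List Bool → Bool}
    (h : ∀ w, w.length ≤ m → O w = O' w) : A.prob O = A.prob O' :=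
  Pool.Agent.H19.NB.t_pcg A O O' fun i w hw => h w (hA i w hw)

theorem loc_yes {R : Set QAlg} {m : ℕ} (hR : ∀ A ∈ R, A.Short m) : Loc m (YesP R) := by
  rintro O O' h ⟨A, hA, hp⟩
  exact ⟨A, hA, by rw [← prob_congr (hR A hA) h]; exact hp⟩

theorem loc_no {R : Set QAlg} {m : ℕ} (hR : ∀ A ∈ R, A.Short m) : Loc m (NoP R) := by
  intro O O' h hN A hA
  rw [← prob_congr (hR A hA) h]
  exact hN A hA

/-- TJR: the table lemma for sets of quantum algorithms. -/
theorem pf_TJR (hST0 : T_ST0) (hSTP : T_STP) (hBSR : T_BSR) (hPA0 : T_PA0) (hCDN : T_CDN) :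
    T_TJR := by
  intro k c C ε hε
  filter_upwards [hPA0 k c C ε hε] with n hn
  intro mw m R e hmw hm hmn hR he
  obtain ⟨t, w, K, g, m0, htk, ht, hw, hg, hm0, hmK, hK, hsum⟩ := hn m hm hmn
  refine ⟨K, hK, ?_⟩
  have hT0 : (0 : ℝ) ≤ C * 2 ^ ((1 / 2 - ε) * n) := by positivity
  have hS : ∀ A ∈ R, A.Short mw := fun A hA => (hR A hA).1
  have hY' := loc_mono (loc_yes hS) hmw
  have hN' := loc_mono (loc_no hS) hmw
  have hw0 : 1 ≤ w 0 := (ht 1 (by omega)).trans (hw 0 (by omega)).1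
  have hw0R : (0 : ℝ) < w 0 := by exact_mod_cast hw0
  have hbase := hST0 (Fin n → Bool) (Ys n) (NoP R) (YesP R) false K m0 m (t 1) (w 0) 0
    (t 0) (2 ^ (n - g)) (1 / (64 * w 0)) (ht 1 (by omega)) (hw 0 (by omega)).1 (by positivity)
    (by rw [mul_one_div_cancel (by positivity)]) (hw 0 (by omega)).2 hN' hY' Nat.one_le_two_pow hmK
    (fun V1' V0' hF => hBSR (Fin n → Bool) (Ys n) (t 0) m0 _ R V1' V0'
      (fun A hA => (hR A hA).2) hT0 hm0 hF)
  refine fin hSTP hCDN (fun s => t (s + 1)) (fun s => w (s + 1)) (fun s => s + 1) (fun _ => rfl) hg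
    k (fun s hs => ht (s + 1) (by omega)) (fun s hs => hw (s + 1) (by omega)) hN' hY'
    (mul_nonneg zero_le_two (erho_nonneg m (t 1) (w 0) 0)) hbase ?_ (by omega) ?_
  · refine le_trans (le_of_eq ?_) hsum
    simp only [zero_add]
  · exact ⟨e, fun w => by rw [htk]; exact he w, fun _ => Iff.rfl, fun _ => Iff.rfl⟩

end Pool.Agent.H96.QC
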